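import Mathlib
import Pool.Agent.Lib_helper15.PENT.TBox
import Pool.Agent.Lib_helper15.PENT.TFm

/-!
# PENT (MP_892e4c_nt), part T, block S3 (helper53)
-/

set_option autoImplicit false

namespace Pool.Agent.PENT

/-- block B3: the determinants -/
theorem pol5_det_pr {P : ℝ} {s : Fin 5 → ℝ} {v w : ℤ × ℤ} {t : ℕ → ℕ} (ht : TF P s v w t) :
    (dt (pol5 v w t 0) (pol5 v w t 1)).natAbs = t 5 ∧
    (dt (pol5 v w t 1) (pol5 v w t 2)).natAbs = t 1 ∧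
    (dt (pol5 v w t 2) (pol5 v w t 3)).natAbs = t 0 ∧
    (dt (pol5 v w t 3) (pol5 v w t 4)).natAbs = t 2 ∧
    (dt (pol5 v w t 4) (pol5 v w t 0)).natAbs = t 4 := by
  have h0 : dt v w ≠ 0 := ht.D0.ne'
  have h3 : dt (uu v w (t 2) (t 3)) w ≠ 0 := by
    rw [ht.d4]
    have h := ht.x0.pos
    exact_mod_cast h.ne'
  obtain ⟨a1, a2⟩ := uu_dt ht.i2 h0
  obtain ⟨b1, b2⟩ := uu_dt ht.i4 h0
  obtain ⟨c1, c2⟩ := uu_dt ht.i0 h3
  have e0 : pol5 v w t 0 = uu (uu v w (t 2) (t 3)) w (t 4) (t 5) := rfl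
  have e1 : pol5 v w t 1 = w := rfl
  have e2 : pol5 v w t 2 = uu v w (t 0) (t 1) := rfl
  have e3 : pol5 v w t 3 = v := rfl
  have e4 : pol5 v w t 4 = uu v w (t 2) (t 3) := rfl
  rw [e0, e1, e2, e3, e4]
  refine ⟨?_, ?_, ?_, ?_, ?_⟩
  · rw [c2, Int.natAbs_natCast]
  · rw [dt_neg, a2, Int.natAbs_neg, Int.natAbs_natCast]
  · rw [dt_neg, a1, Int.natAbs_neg, Int.natAbs_natCast]
  · rw [b1, Int.natAbs_natCast]
  · rw [c1, Int.natAbs_natCast]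

end Pool.Agent.PENT
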